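import Mathlib
import Pool.Agent.Results.MP_725b87_an.NotPluripolar
import Pool.Agent.W578.UpperTest

set_option autoImplicit false

open Set Filter Topology Metric MeasureTheory
open Pool.Agent.Results.MP_725b87_an.NotPluripolar

namespace Pool.Agent.Results.MP_725b87_an.LebesgueNull

/-- Full positive answer to Q1, on every domain: if `Ω ⊆ ℂⁿ` is open and connected and `φ` is
plurisubharmonic on `Ω` and not identically `-∞`, then the set `E(φ)` of the points of `Ω` at
which `φ` admits no differential test from above is a null set for every additive Haar measure,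
that is, for Lebesgue measure on `ℂⁿ = ℝ²ⁿ`. -/
theorem result {n : ℕ} (Ω : Set (Cn n)) (hΩ : IsOpen Ω) (hconn : IsConnected Ω)
    (φ : Cn n → EReal) (hφ : IsPSH Ω φ) (hne : ∃ z ∈ Ω, φ z ≠ ⊥)
    (μ : Measure (Cn n)) [μ.IsAddHaarMeasure] :
    μ (exceptional Ω φ) = 0 :=
  Pool.Agent.W578.UpperTest.exceptional_null hΩ hconn.isPreconnected hφ hne μ

end Pool.Agent.Results.MP_725b87_an.LebesgueNull
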